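import Pool.Agent.Helper80_RS.Stmts
import Pool.Agent.Helper80_RS.Glue

/-!
# The skeleton (SKE)
-/

open SimpleGraph

namespace Pool.Agent.RS80.H33

open Pool.Agent.RS80

/-- A form of the theorem of Ramsey. -/
theorem ramsey : ∀ a b : ℕ, ∃ N : ℕ, ∀ (W : Type) (G : SimpleGraph W) (X : Finset W),
    N ≤ X.card →
    (∃ C : Finset W, C ⊆ X ∧ C.card = a ∧ ∀ x ∈ C, ∀ y ∈ C, x ≠ y → G.Adj x y) ∨
    ∃ C : Finset W, C ⊆ X ∧ C.card = b ∧ ∀ x ∈ C, ∀ y ∈ C, ¬ G.Adj x y := by
  classical
  intro a
  induction a with
  | zero =>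
    intro b
    exact ⟨0, fun W G X _ => Or.inl ⟨∅, by simp, by simp, by simp⟩⟩
  | succ a iha =>
    intro b
    induction b with
    | zero => exact ⟨0, fun W G X _ => Or.inr ⟨∅, by simp, by simp, by simp⟩⟩
    | succ b ihb =>
      obtain ⟨N1, h1⟩ := iha (b + 1)
      obtain ⟨N2, h2⟩ := ihb
      refine ⟨N1 + N2 + 1, fun W G X hX => ?_⟩
      obtain ⟨v, hv⟩ : X.Nonempty := Finset.card_pos.1 (by omega)
      have hc := Finset.card_filter_add_card_filter_not (s := X.erase v) (fun x => G.Adj v x)
      have he := Finset.card_erase_of_mem hv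
      by_cases hA : N1 ≤ ((X.erase v).filter (fun x => G.Adj v x)).card
      · rcases h1 W G _ hA with ⟨C, hCX, hCc, hC⟩ | ⟨C, hCX, hCc, hC⟩
        · left
          have hvC : v ∉ C := by
            intro h
            have := hCX h
            rw [Finset.mem_filter] at this
            exact G.loopless.irrefl v this.2
          refine ⟨insert v C, ?_, by rw [Finset.card_insert_of_notMem hvC, hCc], ?_⟩
          · intro x hx
            rcases Finset.mem_insert.1 hx with rfl | hx
            · exact hv
            · exact Finset.mem_of_mem_erase (Finset.mem_of_mem_filter x (hCX hx))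
          · intro x hx y hy hxy
            rcases Finset.mem_insert.1 hx with hx | hx
            · rcases Finset.mem_insert.1 hy with hy | hy
              · exact absurd (hx.trans hy.symm) hxy
              · rw [hx]
                exact (Finset.mem_filter.1 (hCX hy)).2
            · rcases Finset.mem_insert.1 hy with hy | hy
              · rw [hy]
                exact (Finset.mem_filter.1 (hCX hx)).2.symm
              · exact hC x hx y hy hxy
        · right
          exact ⟨C, fun x hx => Finset.mem_of_mem_erase (Finset.mem_of_mem_filter x (hCX hx)),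
            hCc, hC⟩
      · have hB : N2 ≤ ((X.erase v).filter (fun x => ¬ G.Adj v x)).card := by omega
        rcases h2 W G _ hB with ⟨C, hCX, hCc, hC⟩ | ⟨C, hCX, hCc, hC⟩
        · left
          exact ⟨C, fun x hx => Finset.mem_of_mem_erase (Finset.mem_of_mem_filter x (hCX hx)),
            hCc, hC⟩
        · right
          have hvC : v ∉ C := by
            intro h
            have := hCX h
            rw [Finset.mem_filter] at this
            exact (Finset.notMem_erase v X) this.1
          refine ⟨insert v C, ?_, by rw [Finset.card_insert_of_notMem hvC, hCc], ?_⟩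
          · intro x hx
            rcases Finset.mem_insert.1 hx with rfl | hx
            · exact hv
            · exact Finset.mem_of_mem_erase (Finset.mem_of_mem_filter x (hCX hx))
          · intro x hx y hy
            rcases Finset.mem_insert.1 hx with hx | hx
            · rcases Finset.mem_insert.1 hy with hy | hy
              · rw [hx, hy]
                exact G.loopless.irrefl v
              · rw [hx]
                exact (Finset.mem_filter.1 (hCX hy)).2
            · rcases Finset.mem_insert.1 hy with hy | hy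
              · rw [hy]
                exact fun h => (Finset.mem_filter.1 (hCX hx)).2 h.symm
              · exact hC x hx y hy

variable {V K A T : Type}

/-- New independent vertices `t` with neighbourhoods `σ t`. -/
def ext (G : SimpleGraph A) (σ : T → Set A) : SimpleGraph (A ⊕ T) where
  Adj x y := match x, y with
    | .inl a, .inl b => G.Adj a b
    | .inl a, .inr t => a ∈ σ t
    | .inr t, .inl a => a ∈ σ t
    | .inr _, .inr _ => False
  symm := ⟨by
    rintro (a | s) (b | t) h
    · exact G.symm.symm _ _ h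
    · exact h
    · exact h
    · exact h⟩
  loopless := ⟨by
    rintro (a | s) h
    · exact G.loopless.irrefl a h
    · exact h⟩

theorem equiv_of_card {α β : Type} [Finite α] [Finite β] (h : Nat.card α = Nat.card β) :
    Nonempty (α ≃ β) := by
  have := Fintype.ofFinite α
  have := Fintype.ofFinite β
  rw [Nat.card_eq_fintype_card, Nat.card_eq_fintype_card] at h
  exact ⟨Fintype.equivOfCardEq h⟩

theorem embed_of_card {α β : Type} [Finite α] [Finite β] (h : Nat.card α ≤ Nat.card β) :
    Nonempty (α ↪ β) := by
  have := Fintype.ofFinite α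
  have := Fintype.ofFinite β
  rw [Nat.card_eq_fintype_card, Nat.card_eq_fintype_card] at h
  exact Function.Embedding.nonempty_of_card_le h

theorem base [Finite V] (B : SimpleGraph V) (Z : Set V) (hB : TwoConn B)
    (c : B.Coloring Bool) (z : V) :
    ∃ (K : Type) (_ : Finite K) (D : SimpleGraph K) (P : Set K),
      B.Free D ∧ (∀ p ∈ P, ∀ q ∈ P, ¬ D.Adj p q) ∧ P.ncard + 2 = Nat.card (V ⊕ Z) ∧
      (∀ p ∈ P, ∀ q ∈ P, p ≠ q → B ⊑ D ⊔ edge p q) ∧
      ∀ S ⊆ P, S.ncard = {v | c v = c z}.ncard → B ⊑ cone D S := by
  classical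
  have hV3 := hB.1
  have hZfin : Finite Z := inferInstance
  have hcVZ : Nat.card (V ⊕ Z) = Nat.card V + Nat.card Z := Nat.card_sum
  obtain ⟨m, hm⟩ : ∃ m, m + 2 = Nat.card (V ⊕ Z) := ⟨Nat.card (V ⊕ Z) - 2, by omega⟩
  obtain ⟨N, hN⟩ := ramsey (Nat.card V) m
  -- the edge-maximal graph
  have hbot : B ≠ ⊥ := by
    intro h
    obtain ⟨u, hu⟩ := hB.exists_adj z
    rw [h] at hu
    exact hu
  obtain ⟨D1, -, hD1⟩ := Set.Finite.exists_le_maximal
    (s := {D : SimpleGraph (Fin N) | B.Free D}) (Set.toFinite _) (a := ⊥) (free_bot hbot)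
  have hD1f : B.Free D1 := hD1.1
  have hD1m : ∀ a b, a ≠ b → ¬ D1.Adj a b → B ⊑ D1 ⊔ edge a b := by
    intro a b hab hnadj
    by_contra hcon
    have h1 := hD1.2 (y := D1 ⊔ edge a b) hcon le_sup_left
    apply hnadj
    have h2 : (D1 ⊔ edge a b).Adj a b := by
      rw [sup_adj, edge_adj]
      exact Or.inr ⟨Or.inl ⟨rfl, rfl⟩, hab⟩
    exact h1 h2
  -- the independent set
  obtain ⟨P1, hP1c, hP1⟩ : ∃ C : Finset (Fin N), C.card = m ∧
      ∀ x ∈ C, ∀ y ∈ C, ¬ D1.Adj x y := by
    rcases hN (Fin N) D1 Finset.univ (by simp) with ⟨C, _, hCc, hC⟩ | ⟨C, _, hCc, hC⟩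
    · exfalso
      apply hD1f
      obtain ⟨e⟩ : Nonempty (V ≃ C) := by
        apply equiv_of_card
        rw [← hCc]
        simp
      refine ⟨⟨⟨fun v => (e v).1, fun {u v} huv => ?_⟩, fun u v huv => ?_⟩⟩
      · apply hC _ (e u).2 _ (e v).2
        intro h
        exact huv.ne (e.injective (Subtype.ext h))
      · exact e.injective (Subtype.ext huv)
    · exact ⟨C, hCc, hC⟩
  -- the new vertices
  set s := {v | c v = c z}.ncard with hs
  let 𝒮 : Type := {S : Set (Fin N) // S ⊆ P1 ∧ S.ncard = s}
  have h𝒮 : Finite 𝒮 := inferInstance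
  have := Fintype.ofFinite 𝒮
  let Q : ℕ → Prop := fun k => ∃ σ : Fin k → 𝒮, B.Free (ext D1 (fun t => (σ t).1))
  have hQ0 : Q 0 := by
    refine ⟨Fin.elim0, ?_⟩
    rintro ⟨f⟩
    have h : ∀ v, ∃ a, f v = Sum.inl a := by
      intro v
      rcases hv : f v with a | t
      · exact ⟨a, rfl⟩
      · exact t.elim0
    choose g hg using h
    apply hD1f
    refine ⟨⟨⟨g, fun {u v} huv => ?_⟩, fun u v huv => ?_⟩⟩
    · have h1 := f.toHom.map_rel huv
      change (ext D1 _).Adj (f u) (f v) at h1
      rw [hg, hg] at h1
      exact h1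
    · apply f.injective
      change f u = f v
      change g u = g v at huv
      rw [hg, hg, huv]
  have hQb : ∀ k, Q k → k ≤ Fintype.card 𝒮 * Nat.card V := by
    rintro k ⟨σ, hσ⟩
    by_contra hcon
    push Not at hcon
    obtain ⟨S, hS⟩ := Fintype.exists_lt_card_fiber_of_mul_lt_card (f := σ)
      (n := Nat.card V) (by simpa using hcon)
    apply hσ
    obtain ⟨e1⟩ : Nonempty ({v | c v = c z} ≃ S.1) := by
      apply equiv_of_card
      rw [Nat.card_coe_set_eq, Nat.card_coe_set_eq, S.2.2]
    obtain ⟨e2⟩ : Nonempty (V ↪ (Finset.univ.filter (fun x => σ x = S) : Finset (Fin k))) := by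
      apply embed_of_card
      rw [Nat.card_eq_fintype_card (α := (Finset.univ.filter (fun x => σ x = S) :
        Finset (Fin k))), Fintype.card_coe]
      exact hS.le
    have he2 : ∀ v, σ (e2 v).1 = S := fun v => (Finset.mem_filter.1 (e2 v).2).2
    let g : V → Fin N ⊕ Fin k := fun v =>
      if h : c v = c z then Sum.inl (e1 ⟨v, h⟩).1 else Sum.inr (e2 v).1
    refine ⟨⟨⟨g, fun {u v} huv => ?_⟩, fun u v huv => ?_⟩⟩
    · have hne : c u ≠ c v := c.valid huv
      by_cases h1 : c u = c z
      · have h2 : c v ≠ c z := fun h => hne (h1.trans h.symm)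
        have e3 : g u = Sum.inl (e1 ⟨u, h1⟩).1 := dif_pos h1
        have e4 : g v = Sum.inr (e2 v).1 := dif_neg h2
        rw [e3, e4]
        change (e1 ⟨u, h1⟩).1 ∈ (σ (e2 v).1).1
        rw [he2]
        exact (e1 ⟨u, h1⟩).2
      · have h2 : c v = c z := by
          revert hne h1
          cases c u <;> cases c v <;> cases c z <;> simp
        have e3 : g u = Sum.inr (e2 u).1 := dif_neg h1
        have e4 : g v = Sum.inl (e1 ⟨v, h2⟩).1 := dif_pos h2
        rw [e3, e4]
        change (e1 ⟨v, h2⟩).1 ∈ (σ (e2 u).1).1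
        rw [he2]
        exact (e1 ⟨v, h2⟩).2
    · change g u = g v at huv
      by_cases h1 : c u = c z
      · by_cases h2 : c v = c z
        · have e3 : g u = Sum.inl (e1 ⟨u, h1⟩).1 := dif_pos h1
          have e4 : g v = Sum.inl (e1 ⟨v, h2⟩).1 := dif_pos h2
          rw [e3, e4] at huv
          have h3 := e1.injective (Subtype.ext (Sum.inl_injective huv))
          exact congrArg Subtype.val h3
        · have e3 : g u = Sum.inl (e1 ⟨u, h1⟩).1 := dif_pos h1
          have e4 : g v = Sum.inr (e2 v).1 := dif_neg h2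
          rw [e3, e4] at huv
          cases huv
      · by_cases h2 : c v = c z
        · have e3 : g u = Sum.inr (e2 u).1 := dif_neg h1
          have e4 : g v = Sum.inl (e1 ⟨v, h2⟩).1 := dif_pos h2
          rw [e3, e4] at huv
          cases huv
        · have e3 : g u = Sum.inr (e2 u).1 := dif_neg h1
          have e4 : g v = Sum.inr (e2 v).1 := dif_neg h2
          rw [e3, e4] at huv
          exact e2.injective (Subtype.ext (Sum.inr_injective huv))
  obtain ⟨k, hk, hk'⟩ : ∃ k, Q k ∧ ¬ Q (k + 1) := by
    by_contra hcon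
    push Not at hcon
    have hall : ∀ k, Q k := fun k => Nat.rec hQ0 (fun k hk => hcon k hk) k
    have := hQb _ (hall (Fintype.card 𝒮 * Nat.card V + 1))
    omega
  obtain ⟨σ, hσ⟩ := hk
  refine ⟨Fin N ⊕ Fin k, inferInstance, ext D1 (fun t => (σ t).1), Sum.inl '' (P1 : Set (Fin N)),
    hσ, ?_, ?_, ?_, ?_⟩
  · rintro _ ⟨a, ha, rfl⟩ _ ⟨b, hb, rfl⟩
    exact hP1 a ha b hb
  · rw [Set.ncard_image_of_injective _ Sum.inl_injective, Set.ncard_coe_finset, hP1c, hm]
  · rintro _ ⟨a, ha, rfl⟩ _ ⟨b, hb, rfl⟩ hab
    have hab' : a ≠ b := fun h => hab (by rw [h])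
    obtain ⟨f⟩ := hD1m a b hab' (hP1 a ha b hb)
    refine ⟨⟨⟨fun v => Sum.inl (f v), fun {u v} huv => ?_⟩, fun u v huv => ?_⟩⟩
    · have h1 := f.toHom.map_rel huv
      change (D1 ⊔ edge a b).Adj (f u) (f v) at h1
      rw [sup_adj, edge_adj] at h1
      rw [sup_adj, edge_adj]
      rcases h1 with h1 | ⟨h1, h2⟩
      · exact Or.inl h1
      · right
        refine ⟨?_, fun h => h2 (Sum.inl_injective h)⟩
        rcases h1 with ⟨h3, h4⟩ | ⟨h3, h4⟩
        · exact Or.inl ⟨by rw [h3], by rw [h4]⟩
        · exact Or.inr ⟨by rw [h3], by rw [h4]⟩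
    · exact f.injective (Sum.inl_injective huv)
  · intro S hSP hSs
    set S0 : Set (Fin N) := Sum.inl ⁻¹' S with hS0
    have hS0P : S0 ⊆ P1 := by
      intro a ha
      obtain ⟨b, hb, hab⟩ := hSP ha
      rw [← Sum.inl_injective hab]
      exact hb
    have hSS0 : S = Sum.inl '' S0 := by
      ext x
      constructor
      · intro hx
        obtain ⟨b, hb, rfl⟩ := hSP hx
        exact ⟨b, hx, rfl⟩
      · rintro ⟨a, ha, rfl⟩
        exact ha
    have hS0s : S0.ncard = s := by
      rw [← hSs, hSS0, Set.ncard_image_of_injective _ Sum.inl_injective]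
    have h1 : ¬ B.Free (ext D1 (fun t => ((Fin.cons ⟨S0, hS0P, hS0s⟩ σ : Fin (k + 1) → 𝒮) t).1)) :=
      fun h => hk' ⟨_, h⟩
    rw [not_not] at h1
    refine h1.trans ?_
    let e : Fin N ⊕ Fin (k + 1) → Option (Fin N ⊕ Fin k) := fun x => match x with
      | .inl a => some (.inl a)
      | .inr t => Fin.cases none (fun t => some (.inr t)) t
    refine ⟨⟨⟨e, fun {x y} hxy => ?_⟩, fun x y hxy => ?_⟩⟩
    · rcases x with a | t <;> rcases y with b | t'
      · exact hxy
      · change a ∈ _ at hxy
        induction t' using Fin.cases with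
        | zero =>
          change Sum.inl a ∈ S
          exact hxy
        | succ t' => exact hxy
      · change b ∈ _ at hxy
        induction t using Fin.cases with
        | zero =>
          change Sum.inl b ∈ S
          exact hxy
        | succ t => exact hxy
      · exact hxy.elim
    · change e x = e y at hxy
      rcases x with a | t <;> rcases y with b | t'
      · have h2 : some (Sum.inl a : Fin N ⊕ Fin k) = some (Sum.inl b) := hxy
        have h3 := Sum.inl_injective (Option.some_injective _ h2)
        rw [h3]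
      · exfalso
        induction t' using Fin.cases with
        | zero =>
          have h2 : some (Sum.inl a : Fin N ⊕ Fin k) = none := hxy
          cases h2
        | succ t' =>
          have h2 : some (Sum.inl a : Fin N ⊕ Fin k) = some (Sum.inr t') := hxy
          cases h2
      · exfalso
        induction t using Fin.cases with
        | zero =>
          have h2 : none = some (Sum.inl b : Fin N ⊕ Fin k) := hxy
          cases h2
        | succ t =>
          have h2 : some (Sum.inr t : Fin N ⊕ Fin k) = some (Sum.inl b) := hxy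
          cases h2
      · induction t using Fin.cases with
        | zero =>
          induction t' using Fin.cases with
          | zero => rfl
          | succ t' =>
            have h2 : none = some (Sum.inr t' : Fin N ⊕ Fin k) := hxy
            cases h2
        | succ t =>
          induction t' using Fin.cases with
          | zero =>
            have h2 : some (Sum.inr t : Fin N ⊕ Fin k) = none := hxy
            cases h2
          | succ t' =>
            have h2 : some (Sum.inr t : Fin N ⊕ Fin k) = some (Sum.inr t') := hxy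
            have h3 := Sum.inr_injective (Option.some_injective _ h2)
            rw [h3]

/-! ### The paths -/

/-- The graph `G` with a path of length `L + 1` from every vertex `x = (x, 0)` to the common
end `none`. -/
def star (G : SimpleGraph K) (L : ℕ) : SimpleGraph (Option (K × Fin (L + 1))) where
  Adj x y := match x, y with
    | some a, some b => ((a.2 : ℕ) = 0 ∧ (b.2 : ℕ) = 0 ∧ G.Adj a.1 b.1) ∨
        (a.1 = b.1 ∧ ((a.2 : ℕ) + 1 = b.2 ∨ (b.2 : ℕ) + 1 = a.2))
    | some a, none => (a.2 : ℕ) = L
    | none, some a => (a.2 : ℕ) = L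
    | none, none => False
  symm := ⟨by
    rintro (_ | a) (_ | b) h
    · exact h
    · exact h
    · exact h
    · rcases h with ⟨h1, h2, h3⟩ | ⟨h1, h2⟩
      · exact Or.inl ⟨h2, h1, h3.symm⟩
      · exact Or.inr ⟨h1.symm, h2.symm⟩⟩
  loopless := ⟨by
    rintro (_ | a) h
    · exact h
    · rcases h with ⟨h1, h2, h3⟩ | ⟨h1, h2⟩
      · exact G.loopless.irrefl _ h3
      · omega⟩

/-- The points of the path at `x`. -/
def pt (L : ℕ) (x : K) (i : ℕ) : Option (K × Fin (L + 1)) :=
  if h : i < L + 1 then some (x, ⟨i, h⟩) else none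

theorem pt_of_lt {L : ℕ} (x : K) {i : ℕ} (h : i < L + 1) : pt L x i = some (x, ⟨i, h⟩) :=
  dif_pos h

theorem pt_of_not {L : ℕ} (x : K) {i : ℕ} (h : ¬ i < L + 1) : pt L x i = none := dif_neg h

theorem adj_pt {G : SimpleGraph K} {L : ℕ} {x : K} {i : ℕ} (h1 : 1 ≤ i) (h2 : i ≤ L)
    {y : Option (K × Fin (L + 1))} (h : (star G L).Adj (pt L x i) y) :
    y = pt L x (i - 1) ∨ y = pt L x (i + 1) := by
  rw [pt_of_lt x (by omega : i < L + 1)] at h
  rcases y with _ | ⟨b, j⟩
  · right
    have h3 : i = L := h
    rw [pt_of_not x (by omega)]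
  · rcases h with ⟨h3, _, _⟩ | ⟨h3, h4⟩
    · have h5 : i = 0 := h3
      omega
    · have h6 : x = b := h3
      have h7 : i + 1 = (j : ℕ) ∨ (j : ℕ) + 1 = i := h4
      rcases h7 with h7 | h7
      · right
        rw [pt_of_lt x (by omega : i + 1 < L + 1), ← h6]
        congr 2
        exact Fin.ext h7.symm
      · left
        rw [pt_of_lt x (by omega : i - 1 < L + 1), ← h6]
        congr 2
        apply Fin.ext
        change (j : ℕ) = i - 1
        omega

theorem free_star [Finite V] {B : SimpleGraph V} (hB : TwoConn B) {G : SimpleGraph K}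
    (hG : B.Free G) : B.Free (star G (Nat.card V)) := by
  rintro ⟨f⟩
  set L := Nat.card V with hL
  have hL3 : 3 ≤ L := hB.1
  have hadj : ∀ u v, B.Adj u v → (star G L).Adj (f u) (f v) := fun u v h => f.toHom.map_rel h
  have hinj : ∀ u v, f u = f v → u = v := fun u v h => f.injective h
  -- the neighbours of an inner point of the range belong to the range
  have hstep : ∀ x i, 1 ≤ i → i ≤ L → (∃ v, f v = pt L x i) →
      (∃ v, f v = pt L x (i - 1)) ∧ ∃ v, f v = pt L x (i + 1) := by
    rintro x i h1 h2 ⟨v, hv⟩
    obtain ⟨u1, hu1⟩ := hB.exists_adj v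
    obtain ⟨u2, hne, hu2⟩ := hB.exists_adj_ne v u1
    have e1 := hadj _ _ hu1
    have e2 := hadj _ _ hu2
    rw [hv] at e1 e2
    rcases adj_pt h1 h2 e1 with h3 | h3 <;> rcases adj_pt h1 h2 e2 with h4 | h4
    · exact absurd (hinj _ _ (h4.trans h3.symm)) hne
    · exact ⟨⟨u1, h3⟩, ⟨u2, h4⟩⟩
    · exact ⟨⟨u2, h4⟩, ⟨u1, h3⟩⟩
    · exact absurd (hinj _ _ (h4.trans h3.symm)) hne
  have hno : ∀ x i, 1 ≤ i → i ≤ L → ¬ ∃ v, f v = pt L x i := by
    intro x i h1 h2 hi
    have hup : ∀ k, i + k ≤ L → ∃ v, f v = pt L x (i + k) := by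
      intro k
      induction k with
      | zero => intro _; exact hi
      | succ k ih =>
        intro hk
        exact (hstep x (i + k) (by omega) (by omega) (ih (by omega))).2
    have hdown : ∀ k, k ≤ i → ∃ v, f v = pt L x (i - k) := by
      intro k
      induction k with
      | zero => intro _; exact hi
      | succ k ih =>
        intro hk
        have := (hstep x (i - k) (by omega) (by omega) (ih (by omega))).1
        have e : i - k - 1 = i - (k + 1) := by omega
        rwa [e] at this
    have hall : ∀ k : Fin (L + 1), ∃ v, f v = pt L x k := by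
      intro k
      have hk := k.2
      by_cases hik : i ≤ k
      · have := hup (k - i) (by omega)
        have e : i + ((k : ℕ) - i) = k := by omega
        rwa [e] at this
      · have := hdown (i - k) (by omega)
        have e : i - (i - (k : ℕ)) = k := by omega
        rwa [e] at this
    choose g hg using hall
    have hginj : Function.Injective g := by
      intro a b hab
      have e1 := hg a
      have e2 := hg b
      rw [hab, e2, pt_of_lt x a.2, pt_of_lt x b.2] at e1
      have h3 := Option.some_injective _ e1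
      have h4 := congrArg Prod.snd h3
      exact h4.symm
    have := Nat.card_le_card_of_injective g hginj
    rw [Nat.card_eq_fintype_card, Fintype.card_fin] at this
    omega
  have hform : ∀ v, ∃ x, f v = some (x, 0) := by
    intro v
    rcases hv : f v with _ | ⟨x, i⟩
    · exfalso
      obtain ⟨u, hu⟩ := hB.exists_adj v
      have h1 := hadj _ _ hu
      rw [hv] at h1
      rcases hfu : f u with _ | ⟨y, j⟩
      · rw [hfu] at h1
        exact h1
      · rw [hfu] at h1
        have h2 : (j : ℕ) = L := h1
        apply hno y j (by omega) (by omega)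
        refine ⟨u, ?_⟩
        rw [hfu, pt_of_lt y j.2]
    · by_cases hi : (i : ℕ) = 0
      · refine ⟨x, ?_⟩
        congr 2
        exact Fin.ext hi
      · exfalso
        have := i.2
        apply hno x i (by omega) (by omega)
        refine ⟨v, ?_⟩
        rw [hv, pt_of_lt x i.2]
  choose g hg using hform
  apply hG
  refine ⟨⟨⟨g, fun {u v} huv => ?_⟩, fun u v huv => ?_⟩⟩
  · have h1 := hadj _ _ huv
    rw [hg, hg] at h1
    rcases h1 with ⟨_, _, h3⟩ | ⟨_, h4⟩
    · exact h3
    · exfalso
      have h5 : (0 : ℕ) + 1 = 0 ∨ (0 : ℕ) + 1 = 0 := h4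
      omega
  · change g u = g v at huv
    apply hinj
    rw [hg, hg, huv]

theorem ske : SkeStmt := by
  classical
  intro V _ B Z hB c z hz
  obtain ⟨K0, hfin, D0, P0, hfree, hind, hcard, hedge, hcone⟩ := base B Z hB c z
  have hf := free_star hB hfree
  have hL3 : 3 ≤ Nat.card V := hB.1
  set L := Nat.card V with hL
  let j : K0 → Option (K0 × Fin (L + 1)) := fun x => some (x, 0)
  let j1 : K0 → Option (K0 × Fin (L + 1)) := fun x => some (x, ⟨1, by omega⟩)
  have hj : Function.Injective j := by
    intro x y h
    have := Option.some_injective _ h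
    exact congrArg Prod.fst this
  have hj1 : Function.Injective j1 := by
    intro x y h
    have := Option.some_injective _ h
    exact congrArg Prod.fst this
  have hjj1 : ∀ x y, j x ≠ j1 y := by
    intro x y h
    have h1 := congrArg Prod.snd (Option.some_injective _ h)
    have h2 := congrArg Fin.val h1
    have h3 : (0 : ℕ) = 1 := h2
    omega
  have hadjj1 : ∀ x, (star D0 L).Adj (j x) (j1 x) := by
    intro x
    right
    refine ⟨rfl, Or.inl ?_⟩
    change (0 : ℕ) + 1 = 1
    rfl
  refine ⟨Option (K0 × Fin (L + 1)), inferInstance, star D0 L, j '' P0, hf, ?_, ?_, ?_, ?_, ?_, ?_⟩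
  · rintro _ ⟨x, hx, rfl⟩ _ ⟨y, hy, rfl⟩ h
    rcases h with ⟨_, _, h3⟩ | ⟨_, h4⟩
    · exact hind x hx y hy h3
    · have h5 : (0 : ℕ) + 1 = 0 ∨ (0 : ℕ) + 1 = 0 := h4
      omega
  · rw [Set.ncard_image_of_injective _ hj, hcard]
  · refine ⟨none, ?_⟩
    rintro ⟨x, _, hx⟩
    cases hx
  · -- connectedness
    have hnone : (none : Option (K0 × Fin (L + 1))) ∉ j '' P0 := by
      rintro ⟨x, _, hx⟩
      cases hx
    have hnot : ∀ x (i : Fin (L + 1)), (i : ℕ) ≠ 0 → (some (x, i)) ∉ j '' P0 := by
      rintro x i hi ⟨y, _, hy⟩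
      have h1 := congrArg Prod.snd (Option.some_injective _ hy)
      apply hi
      have h2 : (0 : Fin (L + 1)) = i := h1
      rw [← h2]
      rfl
    have hsym : ∀ a b, (a ∉ j '' P0 ∧ b ∉ j '' P0 ∧ (star D0 L).Adj a b) →
        (b ∉ j '' P0 ∧ a ∉ j '' P0 ∧ (star D0 L).Adj b a) :=
      fun a b h => ⟨h.2.1, h.1, h.2.2.symm⟩
    have hto : ∀ k x (i : Fin (L + 1)), (i : ℕ) + k = L → some (x, i) ∉ j '' P0 →
        Relation.ReflTransGen (fun a b => a ∉ j '' P0 ∧ b ∉ j '' P0 ∧ (star D0 L).Adj a b)
          (some (x, i)) none ∧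
        Relation.ReflTransGen (fun a b => a ∉ j '' P0 ∧ b ∉ j '' P0 ∧ (star D0 L).Adj a b)
          none (some (x, i)) := by
      intro k
      induction k with
      | zero =>
        intro x i hi hn
        have h1 : (some (x, i) : Option (K0 × Fin (L + 1))) ∉ j '' P0 ∧
            (none : Option (K0 × Fin (L + 1))) ∉ j '' P0 ∧
            (star D0 L).Adj (some (x, i)) none := ⟨hn, hnone, by
          change (i : ℕ) = L
          omega⟩
        exact ⟨Relation.ReflTransGen.single h1, Relation.ReflTransGen.single (hsym _ _ h1)⟩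
      | succ k ih =>
        intro x i hi hn
        have hi1 : (i : ℕ) + 1 < L + 1 := by omega
        have hn' := hnot x ⟨i + 1, hi1⟩ (Nat.succ_ne_zero _)
        obtain ⟨h2, h3⟩ := ih x ⟨i + 1, hi1⟩ (by change (i : ℕ) + 1 + k = L; omega) hn'
        have h1 : (some (x, i) : Option (K0 × Fin (L + 1))) ∉ j '' P0 ∧
            (some (x, ⟨i + 1, hi1⟩) : Option (K0 × Fin (L + 1))) ∉ j '' P0 ∧
            (star D0 L).Adj (some (x, i)) (some (x, ⟨i + 1, hi1⟩)) :=
          ⟨hn, hn', Or.inr ⟨rfl, Or.inl rfl⟩⟩
        exact ⟨Relation.ReflTransGen.head h1 h2, Relation.ReflTransGen.tail h3 (hsym _ _ h1)⟩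
    have hto' : ∀ t, t ∉ j '' P0 →
        Relation.ReflTransGen (fun a b => a ∉ j '' P0 ∧ b ∉ j '' P0 ∧ (star D0 L).Adj a b)
          t none ∧
        Relation.ReflTransGen (fun a b => a ∉ j '' P0 ∧ b ∉ j '' P0 ∧ (star D0 L).Adj a b)
          none t := by
      rintro (_ | ⟨x, i⟩) ht
      · exact ⟨Relation.ReflTransGen.refl, Relation.ReflTransGen.refl⟩
      · exact hto (L - i) x i (by have := i.2; omega) ht
    intro t ht t' ht'
    exact (hto' t ht).1.trans (hto' t' ht').2
  · -- completing pairs
    rintro _ ⟨x, hx, rfl⟩ _ ⟨y, hy, rfl⟩ hxy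
    have hxy' : x ≠ y := fun h => hxy (by rw [h])
    obtain ⟨g⟩ := hedge x hx y hy hxy'
    let F : V ⊕ Z → Option (K0 × Fin (L + 1)) := fun v => match v with
      | .inl v => j (g v)
      | .inr z => j1 (g z.1)
    refine ⟨⟨⟨F, fun {u v} huv => ?_⟩, fun u v huv => ?_⟩⟩
    · rcases u with u | u <;> rcases v with v | v
      · have h1 := g.toHom.map_rel huv
        change (D0 ⊔ edge x y).Adj (g u) (g v) at h1
        change (star D0 L ⊔ edge (j x) (j y)).Adj (j (g u)) (j (g v))
        rw [sup_adj, edge_adj] at h1 ⊢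
        rcases h1 with h1 | ⟨h1, h2⟩
        · exact Or.inl (Or.inl ⟨rfl, rfl, h1⟩)
        · right
          refine ⟨?_, fun h => h2 (hj h)⟩
          rcases h1 with ⟨h3, h4⟩ | ⟨h3, h4⟩
          · exact Or.inl ⟨by rw [h3], by rw [h4]⟩
          · exact Or.inr ⟨by rw [h3], by rw [h4]⟩
      · have h1 : u = v.1 := huv
        rw [h1]
        exact Or.inl (hadjj1 _)
      · have h1 : v = u.1 := huv
        rw [h1]
        exact Or.inl (hadjj1 _).symm
      · exact huv.elim
    · change F u = F v at huv
      rcases u with u | u <;> rcases v with v | v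
      · have h1 : j (g u) = j (g v) := huv
        have h2 : u = v := g.injective (hj h1)
        rw [h2]
      · exact absurd huv (hjj1 _ _)
      · exact absurd huv.symm (hjj1 _ _)
      · have h1 : j1 (g u.1) = j1 (g v.1) := huv
        have h2 : u.1 = v.1 := g.injective (hj1 h1)
        rw [Subtype.ext h2]
  · -- new vertices
    intro S hSP hSs
    set S0 : Set K0 := j ⁻¹' S with hS0
    have hS0P : S0 ⊆ P0 := by
      intro a ha
      obtain ⟨b, hb, hab⟩ := hSP ha
      rw [← hj hab]
      exact hb
    have hSS0 : S = j '' S0 := by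
      ext x
      constructor
      · intro hx
        obtain ⟨b, hb, rfl⟩ := hSP hx
        exact ⟨b, hx, rfl⟩
      · rintro ⟨a, ha, rfl⟩
        exact ha
    have hS0s : S0.ncard = {v | c v = c z}.ncard := by
      rw [← hSs, hSS0, Set.ncard_image_of_injective _ hj]
    obtain ⟨g⟩ := hcone S0 hS0P hS0s
    have hkey : ∀ Z' : Set V, (∀ w ∈ Z', g w ≠ none) →
        ∃ f : Copy (pend B Z') (cone (star D0 L) S), ∀ v, f (Sum.inl v) = (g v).map j := by
      intro Z' hZ'
      let F : V ⊕ Z' → Option (Option (K0 × Fin (L + 1))) := fun v => match v with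
        | .inl v => (g v).map j
        | .inr w => (g w.1).map j1
      have hadj : ∀ w ∈ Z', (cone (star D0 L) S).Adj ((g w).map j) ((g w).map j1) := by
        intro w hw
        rcases hgw : g w with _ | a
        · exact absurd hgw (hZ' w hw)
        · exact hadjj1 a
      refine ⟨⟨⟨F, fun {u v} huv => ?_⟩, fun u v huv => ?_⟩, fun v => rfl⟩
      · rcases u with u | u <;> rcases v with v | v
        · have h1 := g.toHom.map_rel huv
          change (cone D0 S0).Adj (g u) (g v) at h1
          change (cone (star D0 L) S).Adj ((g u).map j) ((g v).map j)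
          rcases hgu : g u with _ | a <;> rcases hgv : g v with _ | b <;> rw [hgu, hgv] at h1
          · exact h1
          · exact h1
          · exact h1
          · exact Or.inl ⟨rfl, rfl, h1⟩
        · have h1 : u = v.1 := huv
          rw [h1]
          exact hadj v.1 v.2
        · have h1 : v = u.1 := huv
          rw [h1]
          exact (hadj u.1 u.2).symm
        · exact huv.elim
      · change F u = F v at huv
        rcases u with u | u <;> rcases v with v | v
        · have h1 : (g u).map j = (g v).map j := huv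
          have h2 : u = v := g.injective (Option.map_injective hj h1)
          rw [h2]
        · exfalso
          have h1 : (g u).map j = (g v.1).map j1 := huv
          have h2 := hZ' v.1 v.2
          rcases hgu : g u with _ | a <;> rcases hgv : g v.1 with _ | b
          · exact h2 hgv
          · rw [hgu, hgv] at h1
            cases h1
          · exact h2 hgv
          · rw [hgu, hgv] at h1
            exact hjj1 a b (Option.some_injective _ h1)
        · exfalso
          have h1 : (g u.1).map j1 = (g v).map j := huv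
          have h2 := hZ' u.1 u.2
          rcases hgu : g v with _ | a <;> rcases hgv : g u.1 with _ | b
          · exact h2 hgv
          · rw [hgu, hgv] at h1
            cases h1
          · exact h2 hgv
          · rw [hgu, hgv] at h1
            exact hjj1 a b (Option.some_injective _ h1).symm
        · have h1 : (g u.1).map j1 = (g v.1).map j1 := huv
          have h2 : u.1 = v.1 := g.injective (Option.map_injective hj1 h1)
          rw [Subtype.ext h2]
    by_cases hex : ∃ z' ∈ Z, g z' = none
    · right
      obtain ⟨z', hz', hgz'⟩ := hex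
      obtain ⟨f, hf'⟩ := hkey (Z \ {z'}) (by
        intro w hw h
        apply hw.2
        exact g.injective (h.trans hgz'.symm))
      refine ⟨z', hz', f, ?_⟩
      rw [hf', hgz']
      rfl
    · left
      push Not at hex
      obtain ⟨f, _⟩ := hkey Z hex
      exact ⟨f⟩

end Pool.Agent.RS80.H33
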